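import Mathlib
import Pool.Agent.H72.Lib.S8.H789R2.FR.Defs3
set_option autoImplicit false

/-! Task Q3: Plancherel inequality with a phase. -/

namespace Pool.Agent.H789R2.FR

open MeasureTheory Measure Set Metric Complex
open scoped ENNReal Pointwise RealInnerProductSpace

/-- the Gaussian kernel -/
noncomputable def Planch_k (ε t : ℝ) : ℝ :=
  Real.sqrt (Real.pi / ε) * Real.exp (-(1 / (4 * ε)) * t ^ 2)

theorem Planch_k_nonneg (ε t : ℝ) : 0 ≤ Planch_k ε t := by
  unfold Planch_k
  positivity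

theorem Planch_k_neg (ε t : ℝ) : Planch_k ε (-t) = Planch_k ε t := by
  unfold Planch_k
  rw [neg_sq]

theorem Planch_k_cont (ε : ℝ) : Continuous (Planch_k ε) := by
  unfold Planch_k
  fun_prop

theorem Planch_fourier (ε : ℝ) (hε : 0 < ε) (t : ℝ) :
    ∫ y : ℝ, ((Real.exp (-ε * y ^ 2) : ℝ) : ℂ) * Complex.exp (-((y * t : ℝ) : ℂ) * I) =
      (Planch_k ε t : ℂ) := by
  have h := fourierIntegral_gaussian (b := (ε : ℂ)) (by simpa using hε) (-(t : ℂ))
  have e1 : ∀ y : ℝ, ((Real.exp (-ε * y ^ 2) : ℝ) : ℂ) * Complex.exp (-((y * t : ℝ) : ℂ) * I) =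
      cexp (I * -(t : ℂ) * y) * cexp (-(ε : ℂ) * y ^ 2) := by
    intro y
    rw [mul_comm (cexp _), Complex.ofReal_exp]
    congr 2
    · push_cast
      ring
    · push_cast
      ring
  simp_rw [e1]
  rw [h, Planch_k]
  push_cast
  congr 1
  · rw [Real.sqrt_eq_rpow, Complex.ofReal_cpow (by positivity)]
    push_cast
    ring_nf
  · congr 1
    have : (ε : ℂ) ≠ 0 := by exact_mod_cast hε.ne'
    field_simp

theorem Planch_k_integrable {ε : ℝ} (hε : 0 < ε) : Integrable (Planch_k ε) := by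
  unfold Planch_k
  exact (integrable_exp_neg_mul_sq (by positivity)).const_mul _

theorem Planch_k_integral {ε : ℝ} (hε : 0 < ε) : ∫ t, Planch_k ε t = 2 * Real.pi := by
  unfold Planch_k
  rw [integral_const_mul, integral_gaussian, ← Real.sqrt_mul (by positivity)]
  have : Real.pi / ε * (Real.pi / (1 / (4 * ε))) = (2 * Real.pi) ^ 2 := by
    field_simp
    ring
  rw [this, Real.sqrt_sq (by positivity)]

theorem Planch_k_lint {ε : ℝ} (hε : 0 < ε) (a : ℝ) :
    ∫⁻ v, ENNReal.ofReal (Planch_k ε (a - v)) = ENNReal.ofReal (2 * Real.pi) := by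
  rw [lintegral_sub_left_eq_self (μ := volume) (fun v => ENNReal.ofReal (Planch_k ε v)) a,
    ← ofReal_integral_eq_lintegral_ofReal (Planch_k_integrable hε)
      (Filter.Eventually.of_forall fun v => Planch_k_nonneg ε v), Planch_k_integral hε]

theorem Planch_amgm {a b p q k : ℝ} (hp : 0 < p) (hq : 0 < q) (hk : 0 ≤ k) :
    a * b * k ≤ (a ^ 2 / p * (q * k) + b ^ 2 / q * (p * k)) / 2 := by
  have h : a * b ≤ (a ^ 2 / p * q + b ^ 2 / q * p) / 2 := by
    rw [div_mul_eq_mul_div, div_mul_eq_mul_div, div_add_div _ _ hp.ne' hq.ne', div_div,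
      le_div_iff₀ (by positivity)]
    nlinarith [sq_nonneg (a * q - b * p)]
  calc a * b * k ≤ (a ^ 2 / p * q + b ^ 2 / q * p) / 2 * k := mul_le_mul_of_nonneg_right h hk
    _ = _ := by ring

theorem Planch_schur (S : Set ℝ) (hS : MeasurableSet S) (ψ ψ' : ℝ → ℝ)
    (hψ : Measurable ψ) (hψ' : Measurable ψ') (hd : ∀ c ∈ S, HasDerivWithinAt ψ (ψ' c) S c)
    (hne : ∀ c ∈ S, ψ' c ≠ 0) (hinj : InjOn ψ S) (f : ℝ → ℝ) (hf : Measurable f)
    {ε : ℝ} (hε : 0 < ε) :
    ∫⁻ q : ℝ × ℝ, ENNReal.ofReal (f q.1 * f q.2 * Planch_k ε (ψ q.1 - ψ q.2))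
        ∂((volume.restrict S).prod (volume.restrict S)) ≤
      ENNReal.ofReal (2 * Real.pi) * ∫⁻ c in S, ENNReal.ofReal (f c ^ 2 / |ψ' c|) := by
  set A : ℝ × ℝ → ℝ≥0∞ := fun q => ENNReal.ofReal (f q.1 ^ 2 / |ψ' q.1|) *
    (ENNReal.ofReal |ψ' q.2| * ENNReal.ofReal (Planch_k ε (ψ q.1 - ψ q.2))) with hA
  have hkm := (Planch_k_cont ε).measurable
  have hAm : Measurable A := by
    have h1 : Measurable fun q : ℝ × ℝ => f q.1 ^ 2 / |ψ' q.1| :=
      ((hf.comp measurable_fst).pow_const 2).div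
        (continuous_abs.measurable.comp (hψ'.comp measurable_fst))
    have h2 : Measurable fun q : ℝ × ℝ => |ψ' q.2| :=
      continuous_abs.measurable.comp (hψ'.comp measurable_snd)
    have h3 : Measurable fun q : ℝ × ℝ => Planch_k ε (ψ q.1 - ψ q.2) :=
      hkm.comp ((hψ.comp measurable_fst).sub (hψ.comp measurable_snd))
    exact h1.ennreal_ofReal.mul (h2.ennreal_ofReal.mul h3.ennreal_ofReal)
  have hAint : ∫⁻ q, A q ∂((volume.restrict S).prod (volume.restrict S)) ≤
      ENNReal.ofReal (2 * Real.pi) * ∫⁻ c in S, ENNReal.ofReal (f c ^ 2 / |ψ' c|) := by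
    have hm1 : Measurable fun c : ℝ => ENNReal.ofReal (f c ^ 2 / |ψ' c|) :=
      ((hf.pow_const 2).div (continuous_abs.measurable.comp hψ')).ennreal_ofReal
    rw [lintegral_prod _ hAm.aemeasurable, mul_comm, ← lintegral_mul_const _ hm1]
    refine lintegral_mono fun c => ?_
    have hm : Measurable fun c' : ℝ => ENNReal.ofReal |ψ' c'| *
        ENNReal.ofReal (Planch_k ε (ψ c - ψ c')) :=
      (continuous_abs.measurable.comp hψ').ennreal_ofReal.mul
        (hkm.comp (measurable_const.sub hψ)).ennreal_ofReal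
    simp only [hA]
    rw [lintegral_const_mul _ hm]
    refine mul_le_mul_right ?_ _
    rw [← lintegral_image_eq_lintegral_abs_deriv_mul hS hd hinj
      (fun v => ENNReal.ofReal (Planch_k ε (ψ c - v)))]
    exact (setLIntegral_le_lintegral _ _).trans (Planch_k_lint hε _).le
  have hAswap : ∫⁻ q, A q.swap ∂((volume.restrict S).prod (volume.restrict S)) =
      ∫⁻ q, A q ∂((volume.restrict S).prod (volume.restrict S)) := by
    exact lintegral_prod_swap A
  have hmem : ∀ᵐ q : ℝ × ℝ ∂((volume.restrict S).prod (volume.restrict S)),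
      q.1 ∈ S ∧ q.2 ∈ S := by
    rw [Measure.prod_restrict]
    filter_upwards [ae_restrict_mem (hS.prod hS)] with q hq
    exact hq
  calc _ ≤ ∫⁻ q, (A q + A q.swap) / 2 ∂((volume.restrict S).prod (volume.restrict S)) := by
        refine lintegral_mono_ae ?_
        filter_upwards [hmem] with q hq
        have p1 : 0 < |ψ' q.1| := abs_pos.2 (hne _ hq.1)
        have p2 : 0 < |ψ' q.2| := abs_pos.2 (hne _ hq.2)
        have hk := Planch_k_nonneg ε (ψ q.1 - ψ q.2)
        have hk' : Planch_k ε (ψ q.2 - ψ q.1) = Planch_k ε (ψ q.1 - ψ q.2) := by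
          rw [← Planch_k_neg, neg_sub]
        simp only [hA, Prod.fst_swap, Prod.snd_swap]
        rw [hk', ← ENNReal.ofReal_mul (by positivity), ← ENNReal.ofReal_mul (by positivity),
          ← ENNReal.ofReal_mul (by positivity), ← ENNReal.ofReal_mul (by positivity),
          ← ENNReal.ofReal_add (by positivity) (by positivity)]
        have : (2 : ℝ≥0∞) = ENNReal.ofReal 2 := by simp
        rw [this, ← ENNReal.ofReal_div_of_pos two_pos]
        exact ENNReal.ofReal_le_ofReal (Planch_amgm p1 p2 hk)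
    _ = ∫⁻ q, A q ∂((volume.restrict S).prod (volume.restrict S)) := by
        have hm2 : Measurable fun q : ℝ × ℝ => A q + A q.swap :=
          hAm.add (hAm.comp measurable_swap)
        simp_rw [ENNReal.div_eq_inv_mul]
        rw [lintegral_const_mul _ hm2,
          lintegral_add_left hAm, hAswap, ← two_mul, ← mul_assoc,
          ENNReal.inv_mul_cancel (by simp) (by simp), one_mul]
    _ ≤ _ := hAint

theorem Planch_reg (S : Set ℝ) (hSf : volume S < ∞) (ψ : ℝ → ℝ)
    (hψ : Measurable ψ) (F : ℝ → ℂ) (hF : Measurable F)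
    (hb : ∃ M : ℝ, ∀ x, ‖F x‖ ≤ M) {ε : ℝ} (hε : 0 < ε) :
    ∫⁻ y : ℝ, ENNReal.ofReal (Real.exp (-ε * y ^ 2) *
        ‖∫ c in S, Complex.exp (-((y * ψ c : ℝ) : ℂ) * I) * F c‖ ^ 2) ≤
      ∫⁻ q : ℝ × ℝ, ENNReal.ofReal (‖F q.1‖ * ‖F q.2‖ * Planch_k ε (ψ q.1 - ψ q.2))
        ∂((volume.restrict S).prod (volume.restrict S)) := by
  obtain ⟨M, hM⟩ := hb
  have hM0 : 0 ≤ M := (norm_nonneg _).trans (hM 0)
  have hfin : IsFiniteMeasure (volume.restrict S) := ⟨by
    rw [Measure.restrict_apply_univ]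
    exact hSf⟩
  set G : ℝ → ℂ := fun y => ∫ c in S, Complex.exp (-((y * ψ c : ℝ) : ℂ) * I) * F c with hG
  have hEm : Measurable fun q : ℝ × ℝ => Complex.exp (-((q.1 * ψ q.2 : ℝ) : ℂ) * I) :=
    Complex.measurable_exp.comp ((Complex.measurable_ofReal.comp
      (measurable_fst.mul (hψ.comp measurable_snd))).neg.mul_const I)
  have hGm : StronglyMeasurable G := by
    have h : StronglyMeasurable (fun q : ℝ × ℝ =>
        Complex.exp (-((q.1 * ψ q.2 : ℝ) : ℂ) * I) * F q.2) :=
      (hEm.mul (hF.comp measurable_snd)).stronglyMeasurable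
    exact h.integral_prod_right
  have hEn : ∀ y c : ℝ, ‖Complex.exp (-((y * ψ c : ℝ) : ℂ) * I)‖ = 1 := by
    intro y c
    rw [Complex.norm_exp]
    simp
  have hGb : ∀ y, ‖G y‖ ≤ M * (volume.restrict S).real univ := by
    intro y
    refine norm_integral_le_of_norm_le_const (Filter.Eventually.of_forall fun c => ?_)
    rw [norm_mul, hEn, one_mul]
    exact hM c
  have hgi : Integrable fun y : ℝ => Real.exp (-ε * y ^ 2) := integrable_exp_neg_mul_sq hε
  have hint : Integrable fun y : ℝ => Real.exp (-ε * y ^ 2) * ‖G y‖ ^ 2 := by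
    refine hgi.mul_bdd (c := (M * (volume.restrict S).real univ) ^ 2) ?_ ?_
    · exact (hGm.norm.pow 2).aestronglyMeasurable
    · refine Filter.Eventually.of_forall fun x => ?_
      rw [Real.norm_of_nonneg (by positivity)]
      exact pow_le_pow_left₀ (norm_nonneg _) (hGb x) 2
  rw [← ofReal_integral_eq_lintegral_ofReal hint (Filter.Eventually.of_forall fun y => by
    positivity)]
  -- the triple integrand
  set H : ℝ → ℝ × ℝ → ℂ := fun y q => ((Real.exp (-ε * y ^ 2) : ℝ) : ℂ) *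
    ((Complex.exp (-((y * ψ q.1 : ℝ) : ℂ) * I) * F q.1) *
      (starRingEnd ℂ) (Complex.exp (-((y * ψ q.2 : ℝ) : ℂ) * I) * F q.2)) with hH
  have hHint : Integrable (Function.uncurry H)
      ((volume : Measure ℝ).prod ((volume.restrict S).prod (volume.restrict S))) := by
    have h1 : Integrable (fun z : ℝ × (ℝ × ℝ) => Real.exp (-ε * z.1 ^ 2) * (M * M))
        ((volume : Measure ℝ).prod ((volume.restrict S).prod (volume.restrict S))) :=
      hgi.mul_prod (integrable_const (M * M))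
    refine h1.mono' ?_ (Filter.Eventually.of_forall fun z => ?_)
    · have m1 : Measurable fun z : ℝ × (ℝ × ℝ) =>
          Complex.exp (-((z.1 * ψ z.2.1 : ℝ) : ℂ) * I) * F z.2.1 :=
        (hEm.comp (measurable_fst.prodMk (measurable_fst.comp measurable_snd))).mul
          (hF.comp (measurable_fst.comp measurable_snd))
      have m2 : Measurable fun z : ℝ × (ℝ × ℝ) =>
          Complex.exp (-((z.1 * ψ z.2.2 : ℝ) : ℂ) * I) * F z.2.2 :=
        (hEm.comp (measurable_fst.prodMk (measurable_snd.comp measurable_snd))).mul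
          (hF.comp (measurable_snd.comp measurable_snd))
      have m3 : Measurable fun z : ℝ × (ℝ × ℝ) => ((Real.exp (-ε * z.1 ^ 2) : ℝ) : ℂ) := by
        fun_prop
      have m4 : Measurable (Function.uncurry H) := by
        have : Function.uncurry H = fun z : ℝ × (ℝ × ℝ) =>
            ((Real.exp (-ε * z.1 ^ 2) : ℝ) : ℂ) *
            ((Complex.exp (-((z.1 * ψ z.2.1 : ℝ) : ℂ) * I) * F z.2.1) *
            (starRingEnd ℂ) (Complex.exp (-((z.1 * ψ z.2.2 : ℝ) : ℂ) * I) * F z.2.2)) := rfl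
        rw [this]
        exact m3.mul (m1.mul (Complex.continuous_conj.measurable.comp m2))
      exact m4.aestronglyMeasurable
    · obtain ⟨y, q⟩ := z
      simp only [Function.uncurry, hH]
      rw [norm_mul, norm_mul, norm_mul, RCLike.norm_conj, norm_mul, hEn, hEn, one_mul, one_mul,
        Complex.norm_real, Real.norm_of_nonneg (Real.exp_pos _).le]
      exact mul_le_mul_of_nonneg_left (mul_le_mul (hM _) (hM _) (norm_nonneg _) hM0)
        (Real.exp_pos _).le
  have hval : ((∫ y : ℝ, Real.exp (-ε * y ^ 2) * ‖G y‖ ^ 2 : ℝ) : ℂ) =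
      ∫ q : ℝ × ℝ, F q.1 * (starRingEnd ℂ) (F q.2) * (Planch_k ε (ψ q.1 - ψ q.2) : ℂ)
        ∂((volume.restrict S).prod (volume.restrict S)) := by
    calc ((∫ y : ℝ, Real.exp (-ε * y ^ 2) * ‖G y‖ ^ 2 : ℝ) : ℂ)
        = ∫ y : ℝ, ((Real.exp (-ε * y ^ 2) * ‖G y‖ ^ 2 : ℝ) : ℂ) := integral_ofReal.symm
      _ = ∫ y : ℝ, ∫ q : ℝ × ℝ, H y q ∂((volume.restrict S).prod (volume.restrict S)) := by
          refine integral_congr_ae (Filter.Eventually.of_forall fun y => ?_)
          simp only [hH]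
          rw [integral_const_mul, integral_prod_mul
            (fun c => Complex.exp (-((y * ψ c : ℝ) : ℂ) * I) * F c)
            (fun c => (starRingEnd ℂ) (Complex.exp (-((y * ψ c : ℝ) : ℂ) * I) * F c)),
            integral_conj]
          rw [Complex.ofReal_mul]
          congr 1
          have : G y * (starRingEnd ℂ) (G y) = ((‖G y‖ ^ 2 : ℝ) : ℂ) := by
            rw [Complex.mul_conj, Complex.normSq_eq_norm_sq]
          exact this.symm
      _ = ∫ q : ℝ × ℝ, (∫ y : ℝ, H y q) ∂((volume.restrict S).prod (volume.restrict S)) :=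
          integral_integral_swap hHint
      _ = _ := by
          refine integral_congr_ae (Filter.Eventually.of_forall fun q => ?_)
          simp only
          rw [← Planch_fourier ε hε, ← integral_const_mul]
          refine integral_congr_ae (Filter.Eventually.of_forall fun y => ?_)
          simp only [hH]
          have e1 : (starRingEnd ℂ) (Complex.exp (-((y * ψ q.2 : ℝ) : ℂ) * I)) =
              Complex.exp (((y * ψ q.2 : ℝ) : ℂ) * I) := by
            rw [← Complex.exp_conj]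
            congr 1
            simp
          have e2 : Complex.exp (-((y * (ψ q.1 - ψ q.2) : ℝ) : ℂ) * I) =
              Complex.exp (-((y * ψ q.1 : ℝ) : ℂ) * I) * Complex.exp (((y * ψ q.2 : ℝ) : ℂ) * I) := by
            rw [← Complex.exp_add]
            congr 1
            push_cast
            ring
          rw [map_mul, e1, e2]
          ring
  have hnn : 0 ≤ ∫ y : ℝ, Real.exp (-ε * y ^ 2) * ‖G y‖ ^ 2 :=
    integral_nonneg fun y => by positivity
  have h1 : ENNReal.ofReal (∫ y : ℝ, Real.exp (-ε * y ^ 2) * ‖G y‖ ^ 2) =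
      ‖((∫ y : ℝ, Real.exp (-ε * y ^ 2) * ‖G y‖ ^ 2 : ℝ) : ℂ)‖ₑ := by
    rw [← ofReal_norm, Complex.norm_real, Real.norm_of_nonneg hnn]
  rw [h1, hval]
  refine (enorm_integral_le_lintegral_enorm _).trans (le_of_eq ?_)
  refine lintegral_congr fun q => ?_
  rw [← ofReal_norm, norm_mul, norm_mul, RCLike.norm_conj, Complex.norm_real,
    Real.norm_of_nonneg (Planch_k_nonneg _ _)]

/-- Task Q3. -/
theorem pl_phase (S : Set ℝ) (hS : MeasurableSet S) (hSf : volume S < ∞) (ψ ψ' : ℝ → ℝ)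
    (hψ : Measurable ψ) (hψ' : Measurable ψ') (hd : ∀ c ∈ S, HasDerivWithinAt ψ (ψ' c) S c)
    (hne : ∀ c ∈ S, ψ' c ≠ 0) (hinj : InjOn ψ S) (F : ℝ → ℂ) (hF : Measurable F)
    (hb : ∃ M : ℝ, ∀ x, ‖F x‖ ≤ M) :
    ∫⁻ y : ℝ, ENNReal.ofReal (‖∫ c in S, Complex.exp (-((y * ψ c : ℝ) : ℂ) * I) * F c‖ ^ 2) ≤
      ENNReal.ofReal (2 * Real.pi) * ∫⁻ c in S, ENNReal.ofReal (‖F c‖ ^ 2 / |ψ' c|) := by
  have hfin : IsFiniteMeasure (volume.restrict S) := ⟨by
    rw [Measure.restrict_apply_univ]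
    exact hSf⟩
  set G : ℝ → ℂ := fun y => ∫ c in S, Complex.exp (-((y * ψ c : ℝ) : ℂ) * I) * F c with hG
  have hGm : Measurable G := by
    have hEm : Measurable fun q : ℝ × ℝ => Complex.exp (-((q.1 * ψ q.2 : ℝ) : ℂ) * I) :=
      Complex.measurable_exp.comp ((Complex.measurable_ofReal.comp
        (measurable_fst.mul (hψ.comp measurable_snd))).neg.mul_const I)
    have h : StronglyMeasurable (fun q : ℝ × ℝ =>
        Complex.exp (-((q.1 * ψ q.2 : ℝ) : ℂ) * I) * F q.2) :=
      (hEm.mul (hF.comp measurable_snd)).stronglyMeasurable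
    exact h.integral_prod_right.measurable
  have hlim : Filter.Tendsto (fun k : ℕ => ∫⁻ y : ℝ, ENNReal.ofReal
      (Real.exp (-(1 / ((k : ℝ) + 1)) * y ^ 2) * ‖G y‖ ^ 2)) Filter.atTop
      (nhds (∫⁻ y : ℝ, ENNReal.ofReal (‖G y‖ ^ 2))) := by
    refine lintegral_tendsto_of_tendsto_of_monotone ?_ ?_ ?_
    · intro k
      have : Measurable fun y : ℝ => Real.exp (-(1 / ((k : ℝ) + 1)) * y ^ 2) * ‖G y‖ ^ 2 := by
        have m1 : Measurable fun y : ℝ => Real.exp (-(1 / ((k : ℝ) + 1)) * y ^ 2) := by fun_prop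
        exact m1.mul (hGm.norm.pow_const 2)
      exact this.ennreal_ofReal.aemeasurable
    · refine Filter.Eventually.of_forall fun y => ?_
      intro k l hkl
      apply ENNReal.ofReal_le_ofReal
      refine mul_le_mul_of_nonneg_right (Real.exp_le_exp.2 ?_) (by positivity)
      have h1 : (k : ℝ) + 1 ≤ (l : ℝ) + 1 := by
        have : (k : ℝ) ≤ l := by exact_mod_cast hkl
        linarith
      have h2 : 1 / ((l : ℝ) + 1) ≤ 1 / ((k : ℝ) + 1) := one_div_le_one_div_of_le (by positivity) h1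
      nlinarith [sq_nonneg y]
    · refine Filter.Eventually.of_forall fun y => ?_
      apply ENNReal.tendsto_ofReal
      have h1 : Filter.Tendsto (fun k : ℕ => -(1 / ((k : ℝ) + 1)) * y ^ 2) Filter.atTop (nhds 0) := by
        have := (tendsto_one_div_add_atTop_nhds_zero_nat (𝕜 := ℝ)).neg.mul_const (y ^ 2)
        simpa using this
      have h2 := ((Real.continuous_exp.tendsto 0).comp h1).mul_const (‖G y‖ ^ 2)
      simpa using h2
  refine le_of_tendsto' hlim fun k => ?_
  have hε : 0 < 1 / ((k : ℝ) + 1) := by positivity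
  exact (Planch_reg S hSf ψ hψ F hF hb hε).trans
    (Planch_schur S hS ψ ψ' hψ hψ' hd hne hinj (fun c => ‖F c‖) hF.norm hε)

end Pool.Agent.H789R2.FR
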