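import Mathlib
import Pool.Agent.H72.Lib.S8.H789R2.FR.Sph
set_option autoImplicit false

/-! Bound for the complex exponential integral over the sphere. -/

namespace Pool.Agent.H789R2.FR

open MeasureTheory Measure Set Metric Complex Filter Topology
open scoped ENNReal Pointwise RealInnerProductSpace

/-- a linear isometry mapping one unit vector to another -/
lemma exists_iso {n : ℕ} (e e' : E n) (he : ‖e‖ = 1) (he' : ‖e'‖ = 1) :
    ∃ L : E n ≃ₗᵢ[ℝ] E n, L e = e' := by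
  refine ⟨(ℝ ∙ (e - e'))ᗮ.reflection, ?_⟩
  exact Submodule.reflection_sub (by rw [he, he'])

lemma exp_inv {n : ℕ} (w : ℂ) (e e' : E n) (he : ‖e‖ = 1) (he' : ‖e'‖ = 1) :
    ∫ x, Complex.exp (w * ((⟪e', x⟫ : ℝ) : ℂ)) ∂(sg n) =
      ∫ x, Complex.exp (w * ((⟪e, x⟫ : ℝ) : ℂ)) ∂(sg n) := by
  obtain ⟨L, hL⟩ := exists_iso e e' he he'
  have h1 := (sg_inv L).integral_comp L.toHomeomorph.measurableEmbedding
    (fun x => Complex.exp (w * ((⟪e', x⟫ : ℝ) : ℂ)))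
  rw [← h1]
  congr 1
  ext x
  rw [← hL, L.inner_map_map]

lemma exists_perp {n : ℕ} (hn : 2 ≤ n) (u : E n) : ∃ v : E n, ‖v‖ = 1 ∧ ⟪u, v⟫ = 0 := by
  have h1 := Submodule.finrank_add_finrank_orthogonal (ℝ ∙ u)
  have h2 : Module.finrank ℝ (ℝ ∙ u) ≤ 1 := by
    have := finrank_span_le_card (R := ℝ) ({u} : Set (E n))
    simpa using this
  have h3 : Module.finrank ℝ (E n) = n := by simp
  have h4 : 0 < Module.finrank ℝ (ℝ ∙ u)ᗮ := by omega
  have h5 : Nontrivial (ℝ ∙ u)ᗮ := Module.nontrivial_of_finrank_pos (R := ℝ) h4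
  obtain ⟨⟨x, hx⟩, hx0⟩ := exists_ne (0 : (ℝ ∙ u)ᗮ)
  have hx0' : x ≠ 0 := by
    intro h
    apply hx0
    ext
    simp [h]
  have hxn : ‖x‖ ≠ 0 := norm_ne_zero_iff.mpr hx0'
  refine ⟨(‖x‖)⁻¹ • x, ?_, ?_⟩
  · rw [norm_smul, norm_inv, norm_norm, inv_mul_cancel₀ hxn]
  · rw [inner_smul_right, Submodule.mem_orthogonal_singleton_iff_inner_right.mp hx, mul_zero]

/-- a plane containing two vectors -/
lemma exists_frame {n : ℕ} (hn : 2 ≤ n) (a b : E n) : ∃ (u v : E n) (a1 b1 b2 : ℝ),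
    ‖u‖ = 1 ∧ ‖v‖ = 1 ∧ ⟪u, v⟫ = 0 ∧ a = a1 • u ∧ b = b1 • u + b2 • v := by
  obtain ⟨u, a1, hu, ha⟩ : ∃ (u : E n) (a1 : ℝ), ‖u‖ = 1 ∧ a = a1 • u := by
    by_cases h : a = 0
    · obtain ⟨v, hv, -⟩ := exists_perp hn (0 : E n)
      exact ⟨v, 0, hv, by simp [h]⟩
    · have hn0 : ‖a‖ ≠ 0 := norm_ne_zero_iff.mpr h
      refine ⟨(‖a‖)⁻¹ • a, ‖a‖, ?_, ?_⟩
      · rw [norm_smul, norm_inv, norm_norm, inv_mul_cancel₀ hn0]
      · rw [smul_smul, mul_inv_cancel₀ hn0, one_smul]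
  set b' := b - ⟪u, b⟫ • u with hb'
  have hub' : ⟪u, b'⟫ = 0 := by
    rw [hb', inner_sub_right, inner_smul_right, real_inner_self_eq_norm_sq, hu]
    ring
  obtain ⟨v, b2, hv, huv, hb2⟩ : ∃ (v : E n) (b2 : ℝ), ‖v‖ = 1 ∧ ⟪u, v⟫ = 0 ∧ b' = b2 • v := by
    by_cases h : b' = 0
    · obtain ⟨v, hv, hv'⟩ := exists_perp hn u
      exact ⟨v, 0, hv, hv', by simp [h]⟩
    · have hn0 : ‖b'‖ ≠ 0 := norm_ne_zero_iff.mpr h
      refine ⟨(‖b'‖)⁻¹ • b', ‖b'‖, ?_, ?_, ?_⟩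
      · rw [norm_smul, norm_inv, norm_norm, inv_mul_cancel₀ hn0]
      · rw [inner_smul_right, hub', mul_zero]
      · rw [smul_smul, mul_inv_cancel₀ hn0, one_smul]
  refine ⟨u, v, a1, ⟪u, b⟫, b2, hu, hv, huv, ha, ?_⟩
  rw [← hb2, hb']
  abel

lemma inner_abs_le {n : ℕ} (u x : E n) (hu : ‖u‖ = 1) (hx : ‖x‖ = 1) : |⟪u, x⟫| ≤ 1 := by
  have := abs_real_inner_le_norm u x
  rw [hu, hx] at this
  simpa using this

/-- the analytic family -/
noncomputable def hfun {n : ℕ} (w : ℂ) (u v : E n) (t : ℂ) : ℂ :=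
  ∫ x, Complex.exp (w * (Complex.cos t * ((⟪u, x⟫ : ℝ) : ℂ) + Complex.sin t * ((⟪v, x⟫ : ℝ) : ℂ)))
    ∂(sg n)

lemma cont_inner {n : ℕ} (u : E n) : Continuous (fun x : E n => ((⟪u, x⟫ : ℝ) : ℂ)) := by
  fun_prop

lemma hfun_diff {n : ℕ} (w : ℂ) (u v : E n) (hu : ‖u‖ = 1) (hv : ‖v‖ = 1) :
    Differentiable ℂ (hfun w u v) := by
  haveI := sg_finite n
  intro t0
  obtain ⟨B1, hB1⟩ := (isCompact_closedBall t0 1).exists_bound_of_continuousOn
    (f := Complex.cos) Complex.continuous_cos.continuousOn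
  obtain ⟨B2, hB2⟩ := (isCompact_closedBall t0 1).exists_bound_of_continuousOn
    (f := Complex.sin) Complex.continuous_sin.continuousOn
  set B := max B1 B2 with hB
  have hBc : ∀ t ∈ ball t0 1, ‖Complex.cos t‖ ≤ B := fun t ht =>
    (hB1 t (ball_subset_closedBall ht)).trans (le_max_left _ _)
  have hBs : ∀ t ∈ ball t0 1, ‖Complex.sin t‖ ≤ B := fun t ht =>
    (hB2 t (ball_subset_closedBall ht)).trans (le_max_right _ _)
  have hB0 : 0 ≤ B := (norm_nonneg _).trans (hBc t0 (mem_ball_self one_pos))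
  have key : ∀ t ∈ ball t0 1, ∀ x : E n, ‖x‖ = 1 →
      ‖Complex.cos t * ((⟪u, x⟫ : ℝ) : ℂ) + Complex.sin t * ((⟪v, x⟫ : ℝ) : ℂ)‖ ≤ 2 * B := by
    intro t ht x hx
    refine (norm_add_le _ _).trans ?_
    rw [norm_mul, norm_mul, Complex.norm_real, Complex.norm_real, Real.norm_eq_abs,
      Real.norm_eq_abs]
    have h1 := inner_abs_le u x hu hx
    have h2 := inner_abs_le v x hv hx
    have h3 := hBc t ht
    have h4 := hBs t ht
    have h5 := mul_le_mul h3 h1 (abs_nonneg _) hB0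
    have h6 := mul_le_mul h4 h2 (abs_nonneg _) hB0
    linarith
  have key2 : ∀ t ∈ ball t0 1, ∀ x : E n, ‖x‖ = 1 →
      ‖-Complex.sin t * ((⟪u, x⟫ : ℝ) : ℂ) + Complex.cos t * ((⟪v, x⟫ : ℝ) : ℂ)‖ ≤ 2 * B := by
    intro t ht x hx
    refine (norm_add_le _ _).trans ?_
    rw [norm_mul, norm_mul, norm_neg, Complex.norm_real, Complex.norm_real, Real.norm_eq_abs,
      Real.norm_eq_abs]
    have h1 := inner_abs_le u x hu hx
    have h2 := inner_abs_le v x hv hx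
    have h3 := hBc t ht
    have h4 := hBs t ht
    have h5 := mul_le_mul h4 h1 (abs_nonneg _) hB0
    have h6 := mul_le_mul h3 h2 (abs_nonneg _) hB0
    linarith
  have hcont : ∀ t : ℂ, Continuous (fun x : E n => Complex.exp (w * (Complex.cos t *
      ((⟪u, x⟫ : ℝ) : ℂ) + Complex.sin t * ((⟪v, x⟫ : ℝ) : ℂ)))) := by
    intro t
    fun_prop
  have := hasDerivAt_integral_of_dominated_loc_of_deriv_le (μ := sg n) (𝕜 := ℂ)
    (F := fun t x => Complex.exp (w * (Complex.cos t * ((⟪u, x⟫ : ℝ) : ℂ) +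
      Complex.sin t * ((⟪v, x⟫ : ℝ) : ℂ))))
    (F' := fun t x => Complex.exp (w * (Complex.cos t * ((⟪u, x⟫ : ℝ) : ℂ) +
      Complex.sin t * ((⟪v, x⟫ : ℝ) : ℂ))) *
      (w * (-Complex.sin t * ((⟪u, x⟫ : ℝ) : ℂ) + Complex.cos t * ((⟪v, x⟫ : ℝ) : ℂ))))
    (x₀ := t0) (s := ball t0 1) (bound := fun _ => Real.exp (‖w‖ * (2 * B)) * (‖w‖ * (2 * B)))
    (ball_mem_nhds t0 one_pos) ?_ ?_ ?_ ?_ ?_ ?_
  · exact this.2.differentiableAt
  · exact Eventually.of_forall fun t => (hcont t).aestronglyMeasurable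
  · refine Integrable.of_bound (hcont t0).aestronglyMeasurable (Real.exp (‖w‖ * (2 * B))) ?_
    filter_upwards [sg_ae n] with x hx
    rw [Complex.norm_exp]
    apply Real.exp_le_exp.mpr
    refine (Complex.re_le_norm _).trans ?_
    rw [norm_mul]
    exact mul_le_mul_of_nonneg_left (key t0 (mem_ball_self one_pos) x hx) (norm_nonneg _)
  · apply Continuous.aestronglyMeasurable
    fun_prop
  · filter_upwards [sg_ae n] with x hx t ht
    rw [norm_mul, norm_mul, Complex.norm_exp]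
    refine mul_le_mul ?_ ?_ (by positivity) (by positivity)
    · apply Real.exp_le_exp.mpr
      refine (Complex.re_le_norm _).trans ?_
      rw [norm_mul]
      exact mul_le_mul_of_nonneg_left (key t ht x hx) (norm_nonneg _)
    · exact mul_le_mul_of_nonneg_left (key2 t ht x hx) (norm_nonneg _)
  · exact integrable_const _
  · filter_upwards with x t _
    have h1 : HasDerivAt (fun t => w * (Complex.cos t * ((⟪u, x⟫ : ℝ) : ℂ) +
        Complex.sin t * ((⟪v, x⟫ : ℝ) : ℂ)))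
        (w * (-Complex.sin t * ((⟪u, x⟫ : ℝ) : ℂ) + Complex.cos t * ((⟪v, x⟫ : ℝ) : ℂ))) t :=
      (((Complex.hasDerivAt_cos t).mul_const _).add
        ((Complex.hasDerivAt_sin t).mul_const _)).const_mul w
    exact h1.cexp

lemma hfun_real {n : ℕ} (w : ℂ) (u v e : E n) (hu : ‖u‖ = 1) (hv : ‖v‖ = 1) (huv : ⟪u, v⟫ = 0)
    (he : ‖e‖ = 1) (t : ℝ) :
    hfun w u v t = ∫ x, Complex.exp (w * ((⟪e, x⟫ : ℝ) : ℂ)) ∂(sg n) := by
  have hn : ‖Real.cos t • u + Real.sin t • v‖ = 1 := by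
    have h1 : ‖Real.cos t • u + Real.sin t • v‖ ^ 2 = 1 := by
      rw [norm_add_sq_real, norm_smul, norm_smul, hu, hv, inner_smul_left, inner_smul_right, huv]
      simp
    nlinarith [norm_nonneg (Real.cos t • u + Real.sin t • v)]
  rw [← exp_inv w e (Real.cos t • u + Real.sin t • v) he hn, hfun]
  congr 1
  ext x
  congr 2
  rw [inner_add_left, inner_smul_left, inner_smul_left]
  push_cast
  simp

lemma hfun_const {n : ℕ} (w : ℂ) (u v e : E n) (hu : ‖u‖ = 1) (hv : ‖v‖ = 1) (huv : ⟪u, v⟫ = 0)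
    (he : ‖e‖ = 1) (t : ℂ) :
    hfun w u v t = ∫ x, Complex.exp (w * ((⟪e, x⟫ : ℝ) : ℂ)) ∂(sg n) := by
  set c := ∫ x, Complex.exp (w * ((⟪e, x⟫ : ℝ) : ℂ)) ∂(sg n) with hc
  have h1 : AnalyticOnNhd ℂ (hfun w u v) univ := fun z _ => (hfun_diff w u v hu hv).analyticAt z
  have h2 : AnalyticOnNhd ℂ (fun _ : ℂ => c) univ := fun z _ => analyticAt_const
  have h3 : ∃ᶠ z in 𝓝[≠] (0 : ℂ), hfun w u v z = (fun _ : ℂ => c) z := by
    have h4 : Tendsto (fun t : ℝ => (t : ℂ)) (𝓝[≠] (0 : ℝ)) (𝓝[≠] (0 : ℂ)) := by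
      apply tendsto_nhdsWithin_of_tendsto_nhds_of_eventually_within
      · have : Tendsto (fun t : ℝ => (t : ℂ)) (𝓝 0) (𝓝 ((0 : ℝ) : ℂ)) :=
          Complex.continuous_ofReal.tendsto 0
        rw [Complex.ofReal_zero] at this
        exact this.mono_left nhdsWithin_le_nhds
      · filter_upwards [self_mem_nhdsWithin] with t ht
        simpa using ht
    apply h4.frequently
    apply Eventually.frequently
    exact Eventually.of_forall fun t => hfun_real w u v e hu hv huv he t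
  have := h1.eq_of_frequently_eq h2 h3
  exact congrFun this t

theorem G_bound (n : ℕ) (hn : 2 ≤ n) (a b e : E n) (he : ‖e‖ = 1) (w : ℂ) (hw0 : w ≠ 0)
    (hw : w ^ 2 = ((‖a‖ ^ 2 - ‖b‖ ^ 2 : ℝ) : ℂ) - 2 * ((⟪a, b⟫ : ℝ) : ℂ) * I) :
    ‖∫ x, Complex.exp (((⟪a, x⟫ : ℝ) : ℂ) - ((⟪b, x⟫ : ℝ) : ℂ) * I) ∂(sg n)‖ ≤
      ∫ x, Real.exp (|w.re| * ⟪e, x⟫) ∂(sg n) := by
  haveI := sg_finite n
  obtain ⟨u, v, a1, b1, b2, hu, hv, huv, ha, hb⟩ := exists_frame hn a b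
  set α : ℂ := (a1 : ℂ) - b1 * I with hα
  set β : ℂ := -(b2 : ℂ) * I with hβ
  have hna : ‖a‖ ^ 2 = a1 ^ 2 := by
    rw [ha, norm_smul, hu, mul_one, Real.norm_eq_abs, sq_abs]
  have hnb : ‖b‖ ^ 2 = b1 ^ 2 + b2 ^ 2 := by
    rw [hb, norm_add_sq_real, norm_smul, norm_smul, hu, hv, inner_smul_left, inner_smul_right, huv]
    simp
  have hab : ⟪a, b⟫ = a1 * b1 := by
    rw [ha, hb, inner_smul_left, inner_add_right, inner_smul_right, inner_smul_right, huv,
      real_inner_self_eq_norm_sq, hu]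
    simp
  have hsum : α ^ 2 + β ^ 2 = w ^ 2 := by
    rw [hw, hna, hnb, hab, hα, hβ]
    push_cast
    ring_nf
    rw [Complex.I_sq]
    ring
  have hprod : (α + β * I) * (α - β * I) = w ^ 2 := by
    rw [← hsum]
    ring_nf
    rw [Complex.I_sq]
    ring
  have hne : α + β * I ≠ 0 := by
    intro h
    rw [h, zero_mul] at hprod
    exact pow_ne_zero 2 hw0 hprod.symm
  set q : ℂ := (α + β * I) / w with hq
  have hq0 : q ≠ 0 := div_ne_zero hne hw0
  have hqi : q⁻¹ = (α - β * I) / w := by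
    rw [hq, inv_div, div_eq_div_iff hne hw0]
    rw [mul_comm (α - β * I), hprod]
    ring
  set z : ℂ := -I * Complex.log q with hz
  have hez : Complex.exp (z * I) = q := by
    have : z * I = Complex.log q := by
      rw [hz]
      linear_combination (-Complex.log q) * Complex.I_sq
    rw [this, Complex.exp_log hq0]
  have hez' : Complex.exp (-z * I) = q⁻¹ := by
    rw [neg_mul, Complex.exp_neg, hez]
  have hcos : w * Complex.cos z = α := by
    rw [Complex.cos, hez, hez', hqi, hq]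
    field_simp
    ring
  have hsin : w * Complex.sin z = β := by
    rw [Complex.sin, hez, hez', hqi, hq]
    field_simp
    ring_nf
    rw [Complex.I_sq]
    ring
  have h1 : ∫ x, Complex.exp (((⟪a, x⟫ : ℝ) : ℂ) - ((⟪b, x⟫ : ℝ) : ℂ) * I) ∂(sg n) =
      hfun w u v z := by
    rw [hfun]
    congr 1
    ext x
    congr 1
    rw [mul_add, ← mul_assoc, ← mul_assoc, hcos, hsin, ha, hb, inner_smul_left, inner_add_left,
      inner_smul_left, inner_smul_left, hα, hβ]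
    push_cast
    simp
    ring
  -- choose the sign of the unit vector
  obtain ⟨e', he', hre⟩ : ∃ e' : E n, ‖e'‖ = 1 ∧ ∀ x : E n, w.re * ⟪e', x⟫ = |w.re| * ⟪e, x⟫ := by
    rcases le_total 0 w.re with h | h
    · exact ⟨e, he, fun x => by rw [abs_of_nonneg h]⟩
    · refine ⟨-e, by rw [norm_neg, he], fun x => ?_⟩
      rw [abs_of_nonpos h, inner_neg_left]
      ring
  rw [h1, hfun_const w u v e' hu hv huv he' z]
  refine (norm_integral_le_integral_norm _).trans (le_of_eq ?_)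
  congr 1
  ext x
  rw [Complex.norm_exp, ← hre x]
  congr 1
  simp

end Pool.Agent.H789R2.FR
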