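import Mathlib
import Pool.Agent.H72.Lib.S8.H789R2.FR.Defs
import Pool.Agent.H72.Lib.S8.H789R2.FR.Sph
import Pool.Agent.H72.Lib.S8.H789R2.FR.GB
set_option autoImplicit false

/-! Smoothed densities have optimal decay. -/

namespace Pool.Agent.H789R2.FR

open MeasureTheory Measure Set Metric Complex
open scoped ENNReal Pointwise RealInnerProductSpace

/-- `(1+v)^d ≤ (2d+1)^d e^{v/2}`. -/
theorem one_add_rpow_le (d v : ℝ) (hd : 0 ≤ d) (hv : 0 ≤ v) :
    (1 + v) ^ d ≤ (2 * d + 1) ^ d * Real.exp (v / 2) := by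
  have h1 : 1 + v ≤ (2 * d + 1) * Real.exp (v / (2 * d + 1)) := by
    have h2 : v / (2 * d + 1) + 1 ≤ Real.exp (v / (2 * d + 1)) := Real.add_one_le_exp _
    have h3 : 0 < 2 * d + 1 := by linarith
    calc 1 + v ≤ (2 * d + 1) * (v / (2 * d + 1) + 1) := by
          field_simp
          linarith
      _ ≤ _ := by gcongr
  have h4 : (1 + v) ^ d ≤ ((2 * d + 1) * Real.exp (v / (2 * d + 1))) ^ d :=
    Real.rpow_le_rpow (by linarith) h1 hd
  refine h4.trans ?_
  rw [Real.mul_rpow (by linarith) (Real.exp_pos _).le, ← Real.exp_mul]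
  gcongr
  rw [div_mul_eq_mul_div, div_le_div_iff₀ (by linarith) (by norm_num)]
  nlinarith

/-- Upper bound for `D` valid for all `u ≥ 0`. -/
theorem D_upper' (n : ℕ) (hn : 2 ≤ n) : ∃ C : ℝ, 0 < C ∧ ∀ u : ℝ, 0 ≤ u → ∀ y : E n,
    ‖y‖ = 1 → D u y ≤ C * (1 + u) ^ (-(((n : ℝ) - 1) / 2)) := by
  obtain ⟨C, hC, hD⟩ := D_upper n hn
  have := sg_finite n
  set d : ℝ := ((n : ℝ) - 1) / 2 with hd
  have hd0 : 0 ≤ d := by
    have : (2 : ℝ) ≤ n := by exact_mod_cast hn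
    simp only [hd]; linarith
  set t : ℝ := (sg n).real univ with ht
  have ht0 : 0 ≤ t := measureReal_nonneg
  refine ⟨(C + t + 1) * 2 ^ d, by positivity, fun u hu y hy => ?_⟩
  rcases le_or_gt 1 u with h1 | h1
  · have h2 := hD u (by linarith) y hy
    have h3 : -((n : ℝ) - 1) / 2 = -d := by simp only [hd]; ring
    rw [h3] at h2
    refine h2.trans ?_
    have h4 : u ^ (-d) ≤ 2 ^ d * (1 + u) ^ (-d) := by
      have h5 : ((1 + u) / 2) ^ (-d) = 2 ^ d * (1 + u) ^ (-d) := by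
        rw [Real.div_rpow (by linarith) (by norm_num), Real.rpow_neg (by norm_num : (0:ℝ) ≤ 2)]
        field_simp
      rw [← h5]
      exact Real.rpow_le_rpow_of_nonpos (by linarith) (by linarith) (by linarith)
    calc C * u ^ (-d) ≤ C * (2 ^ d * (1 + u) ^ (-d)) := by gcongr
      _ = C * 2 ^ d * (1 + u) ^ (-d) := by ring
      _ ≤ (C + t + 1) * 2 ^ d * (1 + u) ^ (-d) := by
          have : (0 : ℝ) ≤ (1 + u) ^ (-d) := by positivity
          gcongr
          linarith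
  · have h2 : D u y ≤ t := by
      unfold D
      calc ∫ w, Real.exp (-(u / 2) * ‖y - w‖ ^ 2) ∂(sg n) ≤ ∫ _w, (1 : ℝ) ∂(sg n) := by
            apply integral_mono_of_nonneg
            · exact Filter.Eventually.of_forall fun w => (Real.exp_pos _).le
            · exact integrable_const _
            · refine Filter.Eventually.of_forall fun w => ?_
              simp only
              rw [Real.exp_le_one_iff]
              have : 0 ≤ (u / 2) * ‖y - w‖ ^ 2 := by positivity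
              linarith
        _ = t := by simp [ht]
    have h4 : (1 : ℝ) ≤ 2 ^ d * (1 + u) ^ (-d) := by
      rw [Real.rpow_neg (by linarith), ← div_eq_mul_inv, one_le_div (by positivity)]
      exact Real.rpow_le_rpow (by linarith) (by linarith) hd0
    calc D u y ≤ t := h2
      _ ≤ (C + t + 1) * 1 := by linarith
      _ ≤ (C + t + 1) * (2 ^ d * (1 + u) ^ (-d)) := by
          have : 0 ≤ C + t + 1 := by positivity
          gcongr
      _ = _ := by ring

theorem exp_inner_eq {n : ℕ} (R : ℝ) (y w : E n) (hy : ‖y‖ = 1) (hw : ‖w‖ = 1) :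
    Real.exp (-(R / 2) * ‖y - w‖ ^ 2) = Real.exp (-R) * Real.exp (R * ⟪y, w⟫) := by
  rw [← Real.exp_add]
  congr 1
  rw [norm_sub_sq_real, hy, hw]
  ring

/-- the real exponential integral in terms of `D`. -/
theorem integral_exp_eq {n : ℕ} (u : ℝ) (e : E n) (he : ‖e‖ = 1) :
    ∫ x, Real.exp (u * ⟪e, x⟫) ∂(sg n) = Real.exp u * D u e := by
  unfold D
  rw [← integral_const_mul]
  apply integral_congr_ae
  filter_upwards [sg_ae n] with w hw
  rw [exp_inner_eq u e w he hw, ← mul_assoc, ← Real.exp_add]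
  simp

/-- elementary: the real part of the square root. -/
theorem re_sqrt_bound (R X s : ℝ) (hR : 1 ≤ R) (hX : 2 * R ≤ X) (hs : |s| ≤ 1) (W : ℂ)
    (hW : W ^ 2 = ((R ^ 2 - X ^ 2 : ℝ) : ℂ) - 2 * ((R * X * s : ℝ) : ℂ) * I) :
    |W.re| ≤ R * (1 - 2 * (1 - s ^ 2) / 5) := by
  have h1 : W.re ^ 2 - W.im ^ 2 = R ^ 2 - X ^ 2 := by
    have := congrArg Complex.re hW
    simp [pow_two] at this
    nlinarith
  have h2 : 2 * (W.re * W.im) = - (2 * (R * X * s)) := by
    have := congrArg Complex.im hW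
    simp [pow_two] at this
    nlinarith
  set p := W.re
  set q := W.im
  have hs2 : s ^ 2 ≤ 1 := by
    rw [← sq_abs]; nlinarith [abs_nonneg s]
  set k := 1 - s ^ 2 with hk
  have hk0 : 0 ≤ k := by linarith
  have hk1 : k ≤ 1 := by nlinarith [sq_nonneg s]
  -- p² satisfies p²(p² - (R²-X²)) = R²X²s²
  have h3 : p ^ 2 * (p ^ 2 - (R ^ 2 - X ^ 2)) = R ^ 2 * X ^ 2 * s ^ 2 := by
    have h4 : p * q = -(R * X * s) := by linarith
    have h5 : q ^ 2 = p ^ 2 - (R ^ 2 - X ^ 2) := by linarith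
    rw [← h5]
    calc p ^ 2 * q ^ 2 = (p * q) ^ 2 := by ring
      _ = _ := by rw [h4]; ring
  -- claim p² ≤ R² (1 - 4k/5)
  have hX0 : 0 < X := by linarith
  have h6 : p ^ 2 ≤ R ^ 2 * (1 - 4 * k / 5) := by
    by_contra hcon
    push Not at hcon
    have h7 : R ^ 2 * (1 - 4 * k / 5) * (R ^ 2 * (1 - 4 * k / 5) - (R ^ 2 - X ^ 2)) <
        R ^ 2 * X ^ 2 * s ^ 2 := by
      rw [← h3]
      have h8 : 0 ≤ R ^ 2 * (1 - 4 * k / 5) := by
        have : 0 ≤ 1 - 4 * k / 5 := by linarith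
        positivity
      have h9 : 0 < R ^ 2 * (1 - 4 * k / 5) - (R ^ 2 - X ^ 2) := by
        have : R ^ 2 * (4 * k / 5) < X ^ 2 := by nlinarith
        nlinarith
      have h10 : R ^ 2 * (1 - 4 * k / 5) - (R ^ 2 - X ^ 2) < p ^ 2 - (R ^ 2 - X ^ 2) := by
        linarith
      nlinarith
    have h11 : s ^ 2 = 1 - k := by simp [hk]
    rw [h11] at h7
    have h12 : 0 < R ^ 2 := by positivity
    have h13 : (1 - 4 * k / 5) * (X ^ 2 - R ^ 2 * (4 * k / 5)) < X ^ 2 * (1 - k) := by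
      have : R ^ 2 * ((1 - 4 * k / 5) * (X ^ 2 - R ^ 2 * (4 * k / 5))) <
        R ^ 2 * (X ^ 2 * (1 - k)) := by nlinarith
      exact lt_of_mul_lt_mul_left this h12.le
    -- X² k/5 < (1-4k/5) (4k/5) R² ; X² ≥ 4R²
    have h14 : X ^ 2 * k / 5 < (1 - 4 * k / 5) * (4 * k / 5) * R ^ 2 := by nlinarith
    have h15 : 4 * R ^ 2 ≤ X ^ 2 := by nlinarith
    nlinarith [mul_nonneg hk0 (sq_nonneg R), mul_nonneg (mul_nonneg hk0 hk0) (sq_nonneg R)]
  have h16 : p ^ 2 ≤ (R * (1 - 2 * k / 5)) ^ 2 := by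
    refine h6.trans ?_
    have : 1 - 4 * k / 5 ≤ (1 - 2 * k / 5) ^ 2 := by nlinarith [sq_nonneg k]
    calc R ^ 2 * (1 - 4 * k / 5) ≤ R ^ 2 * (1 - 2 * k / 5) ^ 2 := by gcongr
      _ = _ := by ring
  have h17 : 0 ≤ R * (1 - 2 * k / 5) := by
    have : 0 ≤ 1 - 2 * k / 5 := by linarith
    positivity
  exact abs_le_of_sq_le_sq h16 h17

/-- The ratio bound. -/
theorem ratio_bound (n : ℕ) (hn : 2 ≤ n) : ∃ C : ℝ, 0 < C ∧ ∀ R : ℝ, 1 ≤ R → ∀ u : ℝ, 0 ≤ u →
    u ≤ R → ∀ y : E n, ‖y‖ = 1 → ∀ e : E n, ‖e‖ = 1 →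
    Real.exp (-R) * (Real.exp u * D u e) / D R y ≤ C * Real.exp (-(R - u) / 2) := by
  obtain ⟨C, hC, hU⟩ := D_upper' n hn
  obtain ⟨c, hc, hL⟩ := D_lower n hn
  set d : ℝ := ((n : ℝ) - 1) / 2 with hd
  have hd0 : 0 ≤ d := by
    have : (2 : ℝ) ≤ n := by exact_mod_cast hn
    simp only [hd]; linarith
  refine ⟨C / c * (2 * d + 1) ^ d, by positivity, fun R hR u hu huR y hy e he => ?_⟩
  have h1 := hU u hu e he
  have h2 := hL R hR y hy
  have h3 : -((n : ℝ) - 1) / 2 = -d := by simp only [hd]; ring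
  rw [h3] at h2
  have hR0 : 0 < R := by linarith
  have h4 : 0 < c * R ^ (-d) := by positivity
  have hDu : 0 ≤ D u e := integral_nonneg fun w => (Real.exp_pos _).le
  calc Real.exp (-R) * (Real.exp u * D u e) / D R y
      ≤ Real.exp (-R) * (Real.exp u * (C * (1 + u) ^ (-d))) / (c * R ^ (-d)) := by
        gcongr
    _ = C / c * Real.exp (-(R - u)) * (R / (1 + u)) ^ d := by
        rw [Real.rpow_neg (by linarith), Real.rpow_neg (by linarith),
          Real.div_rpow (by linarith) (by linarith)]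
        have : Real.exp (-(R - u)) = Real.exp (-R) * Real.exp u := by
          rw [← Real.exp_add]; congr 1; ring
        rw [this]
        field_simp
    _ ≤ C / c * Real.exp (-(R - u)) * (1 + (R - u)) ^ d := by
        have h5 : R / (1 + u) ≤ 1 + (R - u) := by
          rw [div_le_iff₀ (by linarith)]
          nlinarith [mul_nonneg hu (sub_nonneg.2 huR)]
        gcongr
    _ ≤ C / c * Real.exp (-(R - u)) * ((2 * d + 1) ^ d * Real.exp ((R - u) / 2)) := by
        have := one_add_rpow_le d (R - u) hd0 (by linarith)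
        gcongr
    _ = C / c * (2 * d + 1) ^ d * Real.exp (-(R - u) / 2) := by
        have : Real.exp (-(R - u) / 2) = Real.exp (-(R - u)) * Real.exp ((R - u) / 2) := by
          rw [← Real.exp_add]; congr 1; ring
        rw [this]; ring

theorem inner_abs_le_one {n : ℕ} (e w : E n) (he : ‖e‖ = 1) (hw : ‖w‖ = 1) : |⟪e, w⟫| ≤ 1 := by
  have := abs_real_inner_le_norm e w
  rw [he, hw] at this
  simpa using this

/-- Bound for the kernel. -/
theorem kernel_bound (n : ℕ) (hn : 2 ≤ n) : ∃ C : ℝ, 0 < C ∧ ∀ R : ℝ, 1 ≤ R → ∀ x : E n,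
    2 * R ≤ ‖x‖ → ∀ y : E n, ‖y‖ = 1 → ∀ w' : E n, ‖w'‖ = 1 →
    ‖∫ w, Complex.exp (-((⟪x, w⟫ : ℝ) : ℂ) * I) *
      ((Real.exp (-(R / 2) * ‖w - w'‖ ^ 2) : ℝ) : ℂ) ∂(sg n)‖ / D R y ≤
    C * (Real.exp (-((R / 5) / 2) * ‖(‖x‖⁻¹ • x) - w'‖ ^ 2) +
      Real.exp (-((R / 5) / 2) * ‖-(‖x‖⁻¹ • x) - w'‖ ^ 2)) := by
  obtain ⟨C, hC, hRat⟩ := ratio_bound n hn
  refine ⟨C, hC, fun R hR x hx y hy w' hw' => ?_⟩
  have hR0 : 0 < R := by linarith
  have hx0 : 0 < ‖x‖ := by linarith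
  set e : E n := ‖x‖⁻¹ • x with he_def
  have he : ‖e‖ = 1 := by
    rw [he_def, norm_smul, norm_inv, norm_norm, inv_mul_cancel₀ hx0.ne']
  set s : ℝ := ⟪e, w'⟫ with hs
  have hs1 : |s| ≤ 1 := inner_abs_le_one e w' he hw'
  have hxe : ⟪w', x⟫ = ‖x‖ * s := by
    have : x = ‖x‖ • e := by
      rw [he_def, smul_smul, mul_inv_cancel₀ hx0.ne', one_smul]
    conv_lhs => rw [this]
    rw [inner_smul_right, real_inner_comm]
  -- the square root
  obtain ⟨W, hW⟩ := IsAlgClosed.exists_pow_nat_eq (((‖R • w'‖ ^ 2 - ‖x‖ ^ 2 : ℝ) : ℂ) -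
      2 * ((⟪R • w', x⟫ : ℝ) : ℂ) * I) (n := 2) (by norm_num)
  have hRw : ‖R • w'‖ = R := by
    rw [norm_smul, hw', mul_one, Real.norm_of_nonneg hR0.le]
  have hin : ⟪R • w', x⟫ = R * ‖x‖ * s := by
    rw [real_inner_smul_left, hxe]; ring
  have hW' : W ^ 2 = ((R ^ 2 - ‖x‖ ^ 2 : ℝ) : ℂ) - 2 * ((R * ‖x‖ * s : ℝ) : ℂ) * I := by
    rw [hW, hRw, hin]
  have hre := re_sqrt_bound R ‖x‖ s hR hx hs1 W hW'
  have hW0 : W ≠ 0 := by
    rintro rfl
    have := congrArg Complex.re hW'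
    simp [pow_two] at this
    nlinarith
  have hG := G_bound n hn (R • w') x y hy W hW0 hW
  set u : ℝ := |W.re| with hu
  have hu0 : 0 ≤ u := abs_nonneg _
  rw [integral_exp_eq u y hy] at hG
  have hs2 : s ^ 2 ≤ 1 := by
    rw [← sq_abs]; nlinarith [abs_nonneg s]
  have huR : u ≤ R := by nlinarith
  have hrat := hRat R hR u hu0 huR y hy y hy
  have hD0 : 0 ≤ D R y := integral_nonneg fun w => (Real.exp_pos _).le
  -- rewrite the integral
  have hI : ∫ w, Complex.exp (-((⟪x, w⟫ : ℝ) : ℂ) * I) *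
      ((Real.exp (-(R / 2) * ‖w - w'‖ ^ 2) : ℝ) : ℂ) ∂(sg n) =
      ((Real.exp (-R) : ℝ) : ℂ) * ∫ w, Complex.exp (((⟪R • w', w⟫ : ℝ) : ℂ) -
        ((⟪x, w⟫ : ℝ) : ℂ) * I) ∂(sg n) := by
    rw [← integral_const_mul]
    apply integral_congr_ae
    filter_upwards [sg_ae n] with w hw
    rw [norm_sub_rev, exp_inner_eq R w' w hw' hw, real_inner_smul_left]
    push_cast
    rw [← Complex.exp_add, ← Complex.exp_add, ← Complex.exp_add]
    congr 1
    ring
  rw [hI, norm_mul, Complex.norm_real, Real.norm_of_nonneg (Real.exp_pos _).le]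
  calc Real.exp (-R) * ‖∫ w, Complex.exp (((⟪R • w', w⟫ : ℝ) : ℂ) -
        ((⟪x, w⟫ : ℝ) : ℂ) * I) ∂(sg n)‖ / D R y
      ≤ Real.exp (-R) * (Real.exp u * D u y) / D R y := by gcongr
    _ ≤ C * Real.exp (-(R - u) / 2) := hrat
    _ ≤ C * (Real.exp (-((R / 5) / 2) * ‖e - w'‖ ^ 2) +
      Real.exp (-((R / 5) / 2) * ‖-e - w'‖ ^ 2)) := by
        gcongr
        have hne : ‖-e‖ = 1 := by rw [norm_neg, he]
        have e1 : ‖e - w'‖ ^ 2 = 2 - 2 * s := by
          rw [norm_sub_sq_real, he, hw', ← hs]; ring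
        have e2 : ‖-e - w'‖ ^ 2 = 2 + 2 * s := by
          rw [norm_sub_sq_real, hne, hw', inner_neg_left, ← hs]; ring
        rw [e1, e2]
        have hb : -(R - u) / 2 ≤ -(R * (1 - s ^ 2) / 5) := by nlinarith
        rcases le_total 0 s with h0 | h0
        · have : Real.exp (-(R - u) / 2) ≤ Real.exp (-((R / 5) / 2) * (2 - 2 * s)) := by
            apply Real.exp_le_exp.2
            refine hb.trans ?_
            have : s ≤ 1 := (abs_le.1 hs1).2
            nlinarith [mul_nonneg (mul_nonneg hR0.le h0) (sub_nonneg.2 this)]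
          have := (Real.exp_pos (-((R / 5) / 2) * (2 + 2 * s))).le
          linarith
        · have : Real.exp (-(R - u) / 2) ≤ Real.exp (-((R / 5) / 2) * (2 + 2 * s)) := by
            apply Real.exp_le_exp.2
            refine hb.trans ?_
            have h1 : -1 ≤ s := (abs_le.1 hs1).1
            nlinarith [mul_nonneg (mul_nonneg hR0.le (neg_nonneg.2 h0)) (by linarith : 0 ≤ 1 + s)]
          have := (Real.exp_pos (-((R / 5) / 2) * (2 - 2 * s))).le
          linarith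

theorem D_pos (n : ℕ) (hn : 2 ≤ n) (R : ℝ) (hR : 1 ≤ R) (y : E n) (hy : ‖y‖ = 1) :
    0 < D R y := by
  obtain ⟨c, hc, hL⟩ := D_lower n hn
  have := hL R hR y hy
  have h2 : 0 < R := by linarith
  have : 0 < c * R ^ (-((n : ℝ) - 1) / 2) := by positivity
  linarith [hL R hR y hy]

theorem exists_unit (n : ℕ) (hn : 2 ≤ n) : ∃ e : E n, ‖e‖ = 1 := by
  refine ⟨EuclideanSpace.single (⟨0, by omega⟩ : Fin n) (1 : ℝ), by simp⟩

/-- Fubini. -/
theorem T_A_eq (n : ℕ) (hn : 2 ≤ n) (g : E n → ℂ) (hg : Measurable g) (M : ℝ)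
    (hM : ∀ x, ‖g x‖ ≤ M) (R : ℝ) (hR : 1 ≤ R) (x : E n) (e : E n) (he : ‖e‖ = 1) :
    T (A R g) x = ∫ w', g w' * ((∫ w, Complex.exp (-((⟪x, w⟫ : ℝ) : ℂ) * I) *
      ((Real.exp (-(R / 2) * ‖w - w'‖ ^ 2) : ℝ) : ℂ) ∂(sg n)) / (D R e : ℂ)) ∂(sg n) := by
  have := sg_finite n
  unfold T
  have h1 : ∫ w, Complex.exp (-((⟪x, w⟫ : ℝ) : ℂ) * I) * A R g w ∂(sg n) =
      ∫ w, ∫ w', Complex.exp (-((⟪x, w⟫ : ℝ) : ℂ) * I) *
        ((Real.exp (-(R / 2) * ‖w - w'‖ ^ 2) : ℝ) : ℂ) * g w' / (D R e : ℂ) ∂(sg n) ∂(sg n) := by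
    apply integral_congr_ae
    filter_upwards [sg_ae n] with w hw
    unfold A
    rw [D_const R w e hw he, mul_div_assoc', ← integral_const_mul, ← integral_div]
    congr 1
    ext w'
    ring
  rw [h1, integral_integral_swap]
  · congr 1
    ext w'
    rw [mul_div_assoc', ← integral_const_mul, ← integral_div]
    congr 1
    ext w
    ring
  · -- integrable on the product
    have hm : Measurable (fun p : E n × E n => Complex.exp (-((⟪x, p.1⟫ : ℝ) : ℂ) * I) *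
        ((Real.exp (-(R / 2) * ‖p.1 - p.2‖ ^ 2) : ℝ) : ℂ) * g p.2 / (D R e : ℂ)) := by
      refine Measurable.div_const (Measurable.mul (Measurable.mul ?_ ?_) (hg.comp measurable_snd)) _
      · apply Continuous.measurable; fun_prop
      · apply Continuous.measurable; fun_prop
    have hD := D_pos n hn R hR e he
    refine Integrable.of_bound hm.aestronglyMeasurable (M / D R e)
      (Filter.Eventually.of_forall fun p => ?_)
    simp only [Function.uncurry]
    rw [norm_div, norm_mul, norm_mul, Complex.norm_real, Complex.norm_real,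
      Real.norm_of_nonneg (Real.exp_pos _).le, Real.norm_of_nonneg hD.le]
    have n1 : ‖Complex.exp (-((⟪x, p.1⟫ : ℝ) : ℂ) * I)‖ = 1 := by
      have : -((⟪x, p.1⟫ : ℝ) : ℂ) * I = ((-⟪x, p.1⟫ : ℝ) : ℂ) * I := by push_cast; ring
      rw [this, Complex.norm_exp_ofReal_mul_I]
    have n2 : Real.exp (-(R / 2) * ‖p.1 - p.2‖ ^ 2) ≤ 1 := by
      rw [Real.exp_le_one_iff]
      have : 0 ≤ (R / 2) * ‖p.1 - p.2‖ ^ 2 := by positivity
      linarith
    rw [n1, one_mul]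
    have hM0 : 0 ≤ M := (norm_nonneg _).trans (hM 0)
    gcongr
    calc Real.exp (-(R / 2) * ‖p.1 - p.2‖ ^ 2) * ‖g p.2‖ ≤ 1 * M := by
          gcongr
          exact hM _
      _ = M := one_mul M

theorem smooth_bound (n : ℕ) (hn : 2 ≤ n) : ∃ C : ℝ, 0 < C ∧ ∀ g : E n → ℂ, Measurable g →
    ∀ M : ℝ, (∀ x, ‖g x‖ ≤ M) → ∀ R : ℝ, 1 ≤ R → ∀ x : E n, 2 * R ≤ ‖x‖ →
    ‖T (A R g) x‖ ≤ C * M * R ^ (-((n : ℝ) - 1) / 2) := by
  obtain ⟨C, hC, hK⟩ := kernel_bound n hn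
  obtain ⟨C2, hC2, hU⟩ := D_upper n hn
  obtain ⟨y, hy⟩ := exists_unit n hn
  have := sg_finite n
  refine ⟨C * (2 * (C2 * (1 / 5) ^ (-((n : ℝ) - 1) / 2))), by positivity,
    fun g hg M hM R hR x hx => ?_⟩
  have hR0 : 0 < R := by linarith
  have hx0 : 0 < ‖x‖ := by linarith
  have hM0 : 0 ≤ M := (norm_nonneg _).trans (hM 0)
  set e : E n := ‖x‖⁻¹ • x with he_def
  have he : ‖e‖ = 1 := by
    rw [he_def, norm_smul, norm_inv, norm_norm, inv_mul_cancel₀ hx0.ne']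
  have hne : ‖-e‖ = 1 := by rw [norm_neg, he]
  have hD := D_pos n hn R hR y hy
  rw [T_A_eq n hn g hg M hM R hR x y hy]
  have hint : ∀ v : E n, Integrable (fun w' : E n => Real.exp (-((R / 5) / 2) * ‖v - w'‖ ^ 2))
      (sg n) := by
    intro v
    refine Integrable.of_bound (Continuous.aestronglyMeasurable (by fun_prop)) 1
      (Filter.Eventually.of_forall fun p => ?_)
    rw [Real.norm_of_nonneg (Real.exp_pos _).le, Real.exp_le_one_iff]
    have : 0 ≤ (R / 5 / 2) * ‖v - p‖ ^ 2 := by positivity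
    linarith
  calc ‖∫ w', g w' * ((∫ w, Complex.exp (-((⟪x, w⟫ : ℝ) : ℂ) * I) *
      ((Real.exp (-(R / 2) * ‖w - w'‖ ^ 2) : ℝ) : ℂ) ∂(sg n)) / (D R y : ℂ)) ∂(sg n)‖
      ≤ ∫ w', M * (C * (Real.exp (-((R / 5) / 2) * ‖e - w'‖ ^ 2) +
      Real.exp (-((R / 5) / 2) * ‖-e - w'‖ ^ 2))) ∂(sg n) := by
        apply norm_integral_le_of_norm_le
        · exact (((hint e).add (hint (-e))).const_mul C).const_mul M
        · filter_upwards [sg_ae n] with w' hw'
          rw [norm_mul, norm_div, Complex.norm_real, Real.norm_of_nonneg hD.le]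
          have := hK R hR x hx y hy w' hw'
          exact mul_le_mul (hM _) this (by positivity) hM0
    _ = M * (C * (D (R / 5) e + D (R / 5) (-e))) := by
        rw [integral_const_mul, integral_const_mul, integral_add (hint e) (hint (-e))]
        rfl
    _ ≤ M * (C * (C2 * (R / 5) ^ (-((n : ℝ) - 1) / 2) +
        C2 * (R / 5) ^ (-((n : ℝ) - 1) / 2))) := by
        have h1 := hU (R / 5) (by linarith) e he
        have h2 := hU (R / 5) (by linarith) (-e) hne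
        gcongr
    _ = _ := by
        have : R / 5 = (1 / 5) * R := by ring
        rw [this, Real.mul_rpow (by norm_num) hR0.le]
        ring

theorem A_one (n : ℕ) (hn : 2 ≤ n) (R : ℝ) (hR : 1 ≤ R) (w : E n) (hw : ‖w‖ = 1) :
    A R (fun _ : E n => (1 : ℂ)) w = 1 := by
  have hD := D_pos n hn R hR w hw
  unfold A
  have : ∫ w', ((Real.exp (-(R / 2) * ‖w - w'‖ ^ 2) : ℝ) : ℂ) * (1 : ℂ) ∂(sg n) =
      (D R w : ℂ) := by
    unfold D
    simp only [mul_one]
    exact integral_ofReal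
  rw [this, div_self]
  exact_mod_cast hD.ne'

theorem decay (n : ℕ) (hn : 2 ≤ n) : ∃ C : ℝ, 0 < C ∧ ∀ x : E n, x ≠ 0 →
    ‖T (fun _ : E n => (1 : ℂ)) x‖ ≤ C * ‖x‖ ^ (-((n : ℝ) - 1) / 2) := by
  obtain ⟨C, hC, hS⟩ := smooth_bound n hn
  have := sg_finite n
  set d : ℝ := ((n : ℝ) - 1) / 2 with hd
  have hd0 : 0 ≤ d := by
    have : (2 : ℝ) ≤ n := by exact_mod_cast hn
    simp only [hd]; linarith
  have h3 : -((n : ℝ) - 1) / 2 = -d := by simp only [hd]; ring
  set t : ℝ := (sg n).real univ with ht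
  have ht0 : 0 ≤ t := measureReal_nonneg
  refine ⟨(C + t) * 2 ^ d, by positivity, fun x hx => ?_⟩
  rw [h3]
  rw [h3] at hS
  have hx0 : 0 < ‖x‖ := norm_pos_iff.2 hx
  rcases le_or_gt 2 ‖x‖ with h2 | h2
  · have h4 := hS (fun _ => 1) measurable_const 1 (by simp) (‖x‖ / 2) (by linarith) x (by linarith)
    have h5 : T (A (‖x‖ / 2) (fun _ : E n => (1 : ℂ))) x = T (fun _ : E n => (1 : ℂ)) x := by
      unfold T
      apply integral_congr_ae
      filter_upwards [sg_ae n] with w hw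
      rw [A_one n hn (‖x‖ / 2) (by linarith) w hw]
    rw [h5] at h4
    refine h4.trans ?_
    have h6 : (‖x‖ / 2) ^ (-d) = 2 ^ d * ‖x‖ ^ (-d) := by
      rw [Real.div_rpow (by linarith) (by norm_num), Real.rpow_neg (by norm_num : (0:ℝ) ≤ 2)]
      field_simp
    rw [h6]
    have : 0 ≤ t * (2 ^ d * ‖x‖ ^ (-d)) := by positivity
    nlinarith
  · have h4 : ‖T (fun _ : E n => (1 : ℂ)) x‖ ≤ t := by
      unfold T
      calc ‖∫ w, Complex.exp (-((⟪x, w⟫ : ℝ) : ℂ) * I) * (1 : ℂ) ∂(sg n)‖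
          ≤ ∫ _w, (1 : ℝ) ∂(sg n) := by
            apply norm_integral_le_of_norm_le (integrable_const _)
            refine Filter.Eventually.of_forall fun w => ?_
            have : -((⟪x, w⟫ : ℝ) : ℂ) * I = ((-⟪x, w⟫ : ℝ) : ℂ) * I := by push_cast; ring
            rw [this, norm_mul, Complex.norm_exp_ofReal_mul_I]
            simp
        _ = t := by simp [ht]
    have h5 : (1 : ℝ) ≤ 2 ^ d * ‖x‖ ^ (-d) := by
      rw [Real.rpow_neg hx0.le, ← div_eq_mul_inv, one_le_div (by positivity)]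
      exact Real.rpow_le_rpow hx0.le h2.le hd0
    calc ‖T (fun _ : E n => (1 : ℂ)) x‖ ≤ t := h4
      _ ≤ (C + t) * 1 := by linarith
      _ ≤ (C + t) * (2 ^ d * ‖x‖ ^ (-d)) := by
          have : 0 ≤ C + t := by positivity
          gcongr
      _ = _ := by ring

end Pool.Agent.H789R2.FR
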